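import Pool.Agent.H7.LP.Targets

/-!
# Row DRR of the board lpg_modules: common lower nodes (helper51)
-/

set_option autoImplicit false

open Set Filter Topology

namespace Pool.Agent.H51.LP

open Pool.Agent.H93.CP Pool.Agent.H7.LP

theorem antH_le {G : Type} [Group G] [TopologicalSpace G] (L : LPD G) {a b : ℕ} (h : a ≤ b) :
    L.H b ≤ L.H a := antitone_nat_of_succ_le L.antH h

theorem antR_le {G : Type} [Group G] [TopologicalSpace G] (L : LPD G) {a b : ℕ} (h : a ≤ b) :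
    L.R b ≤ L.R a := antitone_nat_of_succ_le L.antR h

/-- the conjugate of an element of the stabilizer of the lower label fixes the upper label -/
theorem conj_Stb (h1 : T_LAB) {G : Type} [Group G] [TopologicalSpace G] [IsTopologicalGroup G]
    {R' H' R H : Subgroup G} (hp' : Piece R' H') (hp : Piece R H) (c : ℕ → Set G) {g h d : G}
    (hh : h ∈ H') (hH : ∀ a ∈ H', g * a * g⁻¹ ∈ H) (hR : ∀ r ∈ R', g * r * g⁻¹ ∈ R)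
    (hd : d ∈ Stb H' (lab R' (tr h c))) :
    g * h⁻¹ * d * (g * h⁻¹)⁻¹ ∈ Stb H (lab R (tr g c)) := by
  obtain ⟨-, l2, -, l4, -, -, -⟩ := h1 G
  obtain ⟨hd1, hd2⟩ := hd
  have e1 : g * h⁻¹ * d * (g * h⁻¹)⁻¹ = g * (h⁻¹ * d * h) * g⁻¹ := by group
  rw [e1]
  have hd' : h⁻¹ * d * h ∈ H' := H'.mul_mem (H'.mul_mem (H'.inv_mem hh) hd1) hh
  have ha : g * (h⁻¹ * d * h) * g⁻¹ ∈ H := hH _ hd'
  refine ⟨ha, ?_⟩
  rw [l2 R' H' c hp' h hh] at hd2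
  have e2 : tr (h⁻¹ * d * h) (lab R' c) = lab R' c := by
    rw [tr_mul, tr_mul, hd2, ← tr_mul, inv_mul_cancel, tr_one]
  rw [← l2 R' H' c hp' _ hd'] at e2
  rw [← l2 R H _ hp _ ha, ← tr_mul,
    show g * (h⁻¹ * d * h) * g⁻¹ * g = g * (h⁻¹ * d * h) from by group, tr_mul]
  exact l4 R' R g _ _ hR e2

theorem pf_DRR (h1 : T_LAB) (h2 : T_TGA) : T_DRR := by
  intro G X _ _ _ _ _ L M _ Y P x q₁ q₂ g₁ g₂ m n₁ n₂
  obtain ⟨a₁, ha₁, hb₁⟩ := L.conj g₁ q₁.k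
  obtain ⟨a₂, ha₂, hb₂⟩ := L.conj g₂ q₂.k
  obtain ⟨l, hl⟩ : ∃ l : ℕ, l = max m (max a₁ a₂) := ⟨_, rfl⟩
  have hm : m ≤ l := by omega
  have hla₁ : a₁ ≤ l := by omega
  have hla₂ : a₂ ≤ l := by omega
  obtain ⟨h, hh, z, hz, hlab⟩ := P.rep l x 1
  rw [mul_one] at hlab
  have hp := L.piece l
  have cH₁ : ∀ a ∈ L.H l, g₁ * a * g₁⁻¹ ∈ L.H q₁.k := fun a ha => ha₁ a (antH_le L hla₁ ha)
  have cR₁ : ∀ a ∈ L.R l, g₁ * a * g₁⁻¹ ∈ L.R q₁.k := fun a ha => hb₁ a (antR_le L hla₁ ha)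
  have cH₂ : ∀ a ∈ L.H l, g₂ * a * g₂⁻¹ ∈ L.H q₂.k := fun a ha => ha₂ a (antH_le L hla₂ ha)
  have cR₂ : ∀ a ∈ L.R l, g₂ * a * g₂⁻¹ ∈ L.R q₂.k := fun a ha => hb₂ a (antR_le L hla₂ ha)
  have nH : ∀ a ∈ L.H l, h⁻¹ * a * h ∈ L.H l := fun a ha =>
    (L.H l).mul_mem ((L.H l).mul_mem ((L.H l).inv_mem hh) ha) hh
  have nR : ∀ a ∈ L.R l, h⁻¹ * a * h ∈ L.R l := fun a ha => by
    have := hp.nor h⁻¹ ((L.H l).inv_mem hh) a ha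
    rwa [inv_inv] at this
  have eq : ∀ g a : G, g * h⁻¹ * a * (g * h⁻¹)⁻¹ = g * (h⁻¹ * a * h) * g⁻¹ := fun g a => by group
  obtain ⟨l1, -, -, -, l5, l6, -⟩ := h1 G
  obtain ⟨D, hD⟩ : ∃ D, D = Stb (L.H l) (lab (L.R l) (tr z.2 (Y.C z.1))) := ⟨_, rfl⟩
  have Dcl : IsClosed (D : Set G) := by
    rw [hD]
    exact l5 _ _ ((L.H l).isClosed_of_isOpen hp.op) fun n => l1 _ _ n
  have RD : L.R l ≤ D := by
    rw [hD]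
    exact l6 _ _ _ hp
  have DH : D ≤ L.H l := by
    rw [hD]
    exact fun a ha => ha.1
  have key₁ : ∀ d ∈ D, g₁ * h⁻¹ * d * (g₁ * h⁻¹)⁻¹ ∈
      Stb (L.H q₁.k) (lab (L.R q₁.k) (tr q₁.z.2 (Y.C q₁.z.1))) := by
    intro d hd
    rw [hD, ← hlab] at hd
    rw [← n₁]
    exact conj_Stb h1 hp (L.piece _) _ hh cH₁ cR₁ hd
  have key₂ : ∀ d ∈ D, g₂ * h⁻¹ * d * (g₂ * h⁻¹)⁻¹ ∈
      Stb (L.H q₂.k) (lab (L.R q₂.k) (tr q₂.z.2 (Y.C q₂.z.1))) := by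
    intro d hd
    rw [hD, ← hlab] at hd
    rw [← n₂]
    exact conj_Stb h1 hp (L.piece _) _ hh cH₂ cR₂ hd
  obtain ⟨O, hO⟩ : ∃ O, O = D ⊓ (cj (g₁ * h⁻¹) q₁.K ⊓ cj (g₂ * h⁻¹) q₂.K) := ⟨_, rfl⟩
  have OD : O ≤ D := by
    rw [hO]
    exact inf_le_left
  have O₁ : ∀ a ∈ O, g₁ * h⁻¹ * a * (g₁ * h⁻¹)⁻¹ ∈ q₁.K := by
    intro a ha
    rw [hO] at ha
    exact mem_cj.1 ha.2.1
  have O₂ : ∀ a ∈ O, g₂ * h⁻¹ * a * (g₂ * h⁻¹)⁻¹ ∈ q₂.K := by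
    intro a ha
    rw [hO] at ha
    exact mem_cj.1 ha.2.2
  have RO : L.R l ≤ O := by
    intro r hr
    rw [hO]
    refine ⟨RD hr, mem_cj.2 ?_, mem_cj.2 ?_⟩
    · rw [eq]
      exact q₁.ge (cR₁ _ (nR r hr))
    · rw [eq]
      exact q₂.ge (cR₂ _ (nR r hr))
  have Oop : OpenIn O D := by
    obtain ⟨U₁, hU₁, hV₁⟩ := q₁.opn
    obtain ⟨U₂, hU₂, hV₂⟩ := q₂.opn
    have pre : ∀ (g : G), ∀ U ∈ 𝓝 (1 : G),
        (fun a : G => g * h⁻¹ * a * (g * h⁻¹)⁻¹) ⁻¹' U ∈ 𝓝 (1 : G) := by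
      intro g U hU
      have hc : Continuous fun a : G => g * h⁻¹ * a * (g * h⁻¹)⁻¹ := by fun_prop
      refine hc.continuousAt.preimage_mem_nhds ?_
      have : g * h⁻¹ * 1 * (g * h⁻¹)⁻¹ = 1 := by group
      rw [this]
      exact hU
    refine ⟨_, Filter.inter_mem (pre g₁ U₁ hU₁) (pre g₂ U₂ hU₂), ?_⟩
    intro a ha hau
    rw [hO]
    exact ⟨ha, mem_cj.2 (hV₁ _ (key₁ a ha) hau.1), mem_cj.2 (hV₂ _ (key₂ a ha) hau.2)⟩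
  obtain ⟨K, RK, KO, Kop, Kt⟩ := h2 G (L.R l) (L.H l) D O hp Dcl RD DH RO OD Oop
  have KD := KO.trans OD
  rw [hD] at KD Kop
  have inv : ∀ g a : G, (h * g⁻¹)⁻¹ * a * (h * g⁻¹) = g * h⁻¹ * a * (g * h⁻¹)⁻¹ :=
    fun g a => by group
  refine ⟨⟨l, z, K, hz, RK, KD, Kop, Kt⟩, h, hlab, hm, hh, ⟨?_, ?_, ?_⟩, ⟨?_, ?_, ?_⟩⟩
  · intro a ha
    rw [inv]
    exact O₁ a (KO ha)
  · intro a ha
    rw [inv, eq]
    exact cR₁ _ (nR a ha)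
  · intro a ha
    rw [inv, eq]
    exact cH₁ _ (nH a ha)
  · intro a ha
    rw [inv]
    exact O₂ a (KO ha)
  · intro a ha
    rw [inv, eq]
    exact cR₂ _ (nR a ha)
  · intro a ha
    rw [inv, eq]
    exact cH₂ _ (nH a ha)

end Pool.Agent.H51.LP
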